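import Pool.Agent.Q234.PE.Stm

/-!
# Project PE of helper234: the energy of translation invariant vectors (job PE-ET, helper237)
-/

set_option autoImplicit false

open scoped BigOperators Matrix
open Finset Pool.Agent.TH235.PP Pool.Agent.Q234.PL Pool.Agent.Q234.PE

namespace Pool.Agent.Q237.PE.ET

/-- the translation of the configurations -/
def shE {L : ℕ} (u : Site L) : (Site L → Fin 2) ≃ (Site L → Fin 2) where
  toFun s := fun v => s (v + u)
  invFun s := fun v => s (v - u)
  left_inv s := by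
    funext v
    show s (v - u + u) = s v
    rw [sub_add_cancel]
  right_inv s := by
    funext v
    show s (v + u - u) = s v
    rw [add_sub_cancel_right]

theorem term_shift {L : ℕ} [NeZero L] (B : Finset (ℤ × ℤ)) (h : Matrix (B → Fin 2) (B → Fin 2) ℂ)
    (u : Site L) (s t : Site L → Fin 2) :
    Pool.Agent.H4R2.term B h L u s t = Pool.Agent.H4R2.term B h L 0 (shE u s) (shE u t) := by
  classical
  unfold Pool.Agent.H4R2.term
  have hc : (∀ v, (∀ x : B, Pool.Agent.H4R2.toTorus L x + u ≠ v) → s v = t v) ↔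
      ∀ v, (∀ x : B, Pool.Agent.H4R2.toTorus L x + 0 ≠ v) → shE u s v = shE u t v := by
    constructor
    · intro H v hv
      refine H (v + u) fun x hx => hv x ?_
      rw [add_zero]
      exact add_right_cancel hx
    · intro H v hv
      have h1 := H (v - u) fun x hx => hv x (by
        rw [add_zero] at hx
        rw [hx, sub_add_cancel])
      have e : ∀ f : Site L → Fin 2, shE u f (v - u) = f v := fun f => by
        show f (v - u + u) = f v
        rw [sub_add_cancel]
      rwa [e, e] at h1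
  by_cases hP : ∀ v, (∀ x : B, Pool.Agent.H4R2.toTorus L x + u ≠ v) → s v = t v
  · rw [if_pos hP, if_pos (hc.1 hP)]
    have e : ∀ f : Site L → Fin 2, (fun x : B => f (Pool.Agent.H4R2.toTorus L x + u)) =
        fun x : B => shE u f (Pool.Agent.H4R2.toTorus L x + 0) := by
      intro f
      funext x
      show f (Pool.Agent.H4R2.toTorus L x + u) = f (Pool.Agent.H4R2.toTorus L x + 0 + u)
      rw [add_zero]
    rw [e s, e t]
  · rw [if_neg hP, if_neg fun h' => hP (hc.2 h')]

theorem ip_expand {n : Type} [Fintype n] (A : Matrix n n ℂ) (φ : n → ℂ) :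
    ip φ (A *ᵥ φ) = ∑ s, ∑ t, A s t * ((starRingEnd ℂ) (φ s) * φ t) := by
  unfold ip
  refine sum_congr rfl fun s _ => ?_
  rw [mv, mul_sum]
  exact sum_congr rfl fun t _ => by ring

theorem ip_term {L : ℕ} [NeZero L] (B : Finset (ℤ × ℤ)) (h : Matrix (B → Fin 2) (B → Fin 2) ℂ)
    (φ : (Site L → Fin 2) → ℂ)
    (hφ : ∀ u : Site L, ∃ c : ℂ, ‖c‖ = 1 ∧ ∀ s : Site L → Fin 2, (φ fun v => s (v + u)) = c * φ s)
    (u : Site L) : ip φ (Pool.Agent.H4R2.term B h L u *ᵥ φ) =
      ip φ (Pool.Agent.H4R2.term B h L 0 *ᵥ φ) := by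
  obtain ⟨c, hc, h1⟩ := hφ u
  have hcc : (starRingEnd ℂ) c * c = 1 := by
    rw [mul_comm, Complex.mul_conj, Complex.normSq_eq_norm_sq, hc]
    norm_num
  rw [ip_expand, ip_expand]
  refine Fintype.sum_equiv (shE u) _ _ fun s => ?_
  refine Fintype.sum_equiv (shE u) _ _ fun t => ?_
  have e1 : φ (shE u s) = c * φ s := h1 s
  have e2 : φ (shE u t) = c * φ t := h1 t
  rw [term_shift, e1, e2, map_mul]
  linear_combination (-(Pool.Agent.H4R2.term B h L 0 (shE u s) (shE u t) *
    ((starRingEnd ℂ) (φ s) * φ t))) * hcc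

theorem ip_zero {L : ℕ} [NeZero L] (B : Finset (ℤ × ℤ)) (h : Matrix (B → Fin 2) (B → Fin 2) ℂ)
    (φ : (Site L → Fin 2) → ℂ) :
    ip φ (Pool.Agent.H4R2.term B h L 0 *ᵥ φ) =
      (h * Pool.Agent.H4R2.rdm (fun x : B => Pool.Agent.H4R2.toTorus L x) φ).trace := by
  classical
  set j : B → Site L := fun x => Pool.Agent.H4R2.toTorus L x with hj
  rw [ip_expand, Matrix.trace]
  simp only [Matrix.diag_apply, Matrix.mul_apply]
  have h1 : ∀ a b : B → Fin 2, h a b * Pool.Agent.H4R2.rdm j φ b a =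
      ∑ s : Site L → Fin 2, ∑ t : Site L → Fin 2,
        if Pool.Agent.H4R2.Ker j a b s t then h a b * ((starRingEnd ℂ) (φ s) * φ t) else 0 := by
    intro a b
    unfold Pool.Agent.H4R2.rdm
    simp only [mul_sum]
    rw [sum_comm]
    refine sum_congr rfl fun s _ => sum_congr rfl fun t _ => ?_
    have hk : Pool.Agent.H4R2.Ker j b a t s ↔ Pool.Agent.H4R2.Ker j a b s t := by
      unfold Pool.Agent.H4R2.Ker
      constructor
      · rintro ⟨k1, k2, k3⟩
        exact ⟨k2, k1, fun v hv => (k3 v hv).symm⟩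
      · rintro ⟨k1, k2, k3⟩
        exact ⟨k2, k1, fun v hv => (k3 v hv).symm⟩
    by_cases hK : Pool.Agent.H4R2.Ker j a b s t
    · rw [if_pos (hk.2 hK), if_pos hK]
      ring
    · rw [if_neg fun h' => hK (hk.1 h'), if_neg hK, mul_zero]
  simp only [h1]
  -- exchange the sums
  have h2 : ∑ a : B → Fin 2, ∑ b : B → Fin 2, ∑ s : Site L → Fin 2, ∑ t : Site L → Fin 2,
      (if Pool.Agent.H4R2.Ker j a b s t then h a b * ((starRingEnd ℂ) (φ s) * φ t) else 0) =
      ∑ s : Site L → Fin 2, ∑ t : Site L → Fin 2, ∑ a : B → Fin 2, ∑ b : B → Fin 2,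
      (if Pool.Agent.H4R2.Ker j a b s t then h a b * ((starRingEnd ℂ) (φ s) * φ t) else 0) := by
    have e1 : ∀ a : B → Fin 2, ∑ b : B → Fin 2, ∑ s : Site L → Fin 2, ∑ t : Site L → Fin 2,
        (if Pool.Agent.H4R2.Ker j a b s t then h a b * ((starRingEnd ℂ) (φ s) * φ t) else 0) =
        ∑ s : Site L → Fin 2, ∑ t : Site L → Fin 2, ∑ b : B → Fin 2,
        (if Pool.Agent.H4R2.Ker j a b s t then h a b * ((starRingEnd ℂ) (φ s) * φ t) else 0) := by
      intro a
      rw [sum_comm]
      exact sum_congr rfl fun s _ => sum_comm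
    rw [sum_congr rfl fun a _ => e1 a, sum_comm]
    exact sum_congr rfl fun s _ => sum_comm
  rw [h2]
  refine sum_congr rfl fun s _ => sum_congr rfl fun t _ => ?_
  rw [Finset.sum_eq_single (fun x => s (j x)), Finset.sum_eq_single (fun x => t (j x))]
  · unfold Pool.Agent.H4R2.term
    have hc : (∀ v, (∀ x : B, Pool.Agent.H4R2.toTorus L x + 0 ≠ v) → s v = t v) ↔
        Pool.Agent.H4R2.Ker j (fun x => s (j x)) (fun x => t (j x)) s t := by
      unfold Pool.Agent.H4R2.Ker
      constructor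
      · intro H
        refine ⟨fun _ => rfl, fun _ => rfl, fun v hv => H v fun x hx => hv x ?_⟩
        rwa [add_zero] at hx
      · rintro ⟨-, -, H⟩ v hv
        exact H v fun x hx => hv x (by rwa [add_zero])
    by_cases hP : ∀ v, (∀ x : B, Pool.Agent.H4R2.toTorus L x + 0 ≠ v) → s v = t v
    · rw [if_pos hP, if_pos (hc.1 hP)]
      simp only [add_zero]
      rfl
    · rw [if_neg hP, if_neg fun h' => hP (hc.2 h'), zero_mul]
  · intro b _ hb
    rw [if_neg]
    rintro ⟨-, k2, -⟩
    exact hb (funext fun x => (k2 x).symm)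
  · intro hn
    exact absurd (mem_univ _) hn
  · intro a _ ha
    refine sum_eq_zero fun b _ => ?_
    rw [if_neg]
    rintro ⟨k1, -, -⟩
    exact ha (funext fun x => (k1 x).symm)
  · intro hn
    exact absurd (mem_univ _) hn

theorem main : EnergyTrace := by
  intro L _ B h φ hφ
  have h1 : ip φ (Pool.Agent.H4R2.ham B h L *ᵥ φ) =
      ∑ u : Site L, ip φ (Pool.Agent.H4R2.term B h L u *ᵥ φ) := by
    unfold Pool.Agent.H4R2.ham
    rw [ip_expand]
    simp only [Matrix.sum_apply, sum_mul]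
    rw [sum_congr rfl fun u _ => ip_expand (Pool.Agent.H4R2.term B h L u) φ]
    rw [sum_comm]
    have e : ∀ s : Site L → Fin 2, ∑ t : Site L → Fin 2, ∑ u : Site L,
        Pool.Agent.H4R2.term B h L u s t * ((starRingEnd ℂ) (φ s) * φ t) =
        ∑ u : Site L, ∑ t : Site L → Fin 2,
        Pool.Agent.H4R2.term B h L u s t * ((starRingEnd ℂ) (φ s) * φ t) := fun s => sum_comm
    rw [sum_comm]
    rw [sum_congr rfl fun s _ => e s, sum_comm]
  rw [h1, sum_congr rfl fun u _ => (ip_term B h φ hφ u).trans (ip_zero B h φ), sum_const,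
    nsmul_eq_mul]
  congr 1
  rw [card_univ, Fintype.card_prod, ZMod.card]
  push_cast
  ring

end Pool.Agent.Q237.PE.ET
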