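import Pool.Agent.Q234.PE.Stm
import Pool.Agent.Q224.PL.NU

/-!
# Project PE of helper234: the numerical constants (job PE-NU, helper237)
-/

set_option autoImplicit false

open scoped BigOperators Matrix
open Finset Pool.Agent.TH235.PP Pool.Agent.Q234.PL Pool.Agent.Q234.PE

namespace Pool.Agent.Q237.PE.NU

theorem kap_le (lam : ℝ) (h0 : 0 < lam) (h1 : lam < 1) (a : ℝ)
    (ha : a = 81 * 49 / (lam ^ 2 * (1 - lam))) (m : ℕ) (hm : 1 ≤ m) :
    0 ≤ kap m lam ∧ 1 + 4 * kap m lam ≤ a ^ m := by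
  have hl : 0 < 1 - lam := by linarith
  have hl1 : 1 - lam ≤ 1 := by linarith
  have hp : 0 < lam ^ (2 * m - 1) := by positivity
  have e0 : kap m lam = 20 * 49 ^ m / (lam ^ (2 * m - 1) * (1 - lam)) := by
    unfold kap hh
    field_simp
    norm_num
  have e1 : (1 - lam) ^ m ≤ (1 - lam) := by
    calc (1 - lam) ^ m ≤ (1 - lam) ^ 1 := pow_le_pow_of_le_one hl.le hl1 hm
      _ = 1 - lam := pow_one _
  have e2 : lam ^ (2 * m) ≤ lam ^ (2 * m - 1) := pow_le_pow_of_le_one h0.le h1.le (by omega)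
  have e3 : (lam ^ 2) ^ m * (1 - lam) ^ m ≤ lam ^ (2 * m - 1) * (1 - lam) := by
    rw [← pow_mul]
    gcongr
  have e4 : (1 : ℝ) ≤ 49 ^ m / (lam ^ (2 * m - 1) * (1 - lam)) := by
    rw [le_div_iff₀ (by positivity), one_mul]
    have b1 : lam ^ (2 * m - 1) ≤ 1 := pow_le_one₀ h0.le h1.le
    have b2 : (1 : ℝ) ≤ 49 ^ m := one_le_pow₀ (by norm_num)
    have b3 : lam ^ (2 * m - 1) * (1 - lam) ≤ 1 * 1 := by gcongr
    linarith
  refine ⟨by rw [e0]; positivity, ?_⟩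
  have c1 : 1 + 4 * kap m lam ≤ 81 * (49 ^ m / (lam ^ (2 * m - 1) * (1 - lam))) := by
    rw [e0]
    have : 4 * (20 * 49 ^ m / (lam ^ (2 * m - 1) * (1 - lam))) =
        80 * (49 ^ m / (lam ^ (2 * m - 1) * (1 - lam))) := by ring
    rw [this]
    linarith
  have c2 : (81 : ℝ) ≤ 81 ^ m := by
    calc (81 : ℝ) = 81 ^ 1 := (pow_one _).symm
      _ ≤ 81 ^ m := pow_le_pow_right₀ (by norm_num) hm
  have c3 : (49 : ℝ) ^ m / (lam ^ (2 * m - 1) * (1 - lam)) ≤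
      49 ^ m / ((lam ^ 2) ^ m * (1 - lam) ^ m) :=
    div_le_div_of_nonneg_left (by positivity) (by positivity) e3
  calc 1 + 4 * kap m lam ≤ 81 * (49 ^ m / (lam ^ (2 * m - 1) * (1 - lam))) := c1
    _ ≤ 81 ^ m * (49 ^ m / ((lam ^ 2) ^ m * (1 - lam) ^ m)) := by gcongr
    _ = a ^ m := by
        rw [ha, div_pow, mul_pow, mul_pow]
        ring

theorem part2 (lam : ℝ) (h0 : 0 < lam) (h1 : lam < 1) (a : ℝ)
    (ha : a = 81 * 49 / (lam ^ 2 * (1 - lam))) (C : ℝ) (hC : 11 + 10 * Real.log a ≤ C)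
    (m : ℕ) (hm : 1 ≤ m) :
    288 * (m : ℝ) ^ 5 * kap m lam ^ 4 * (1 + 4 * kap m lam) ^ (4 * m ^ 2) /
      (1 - lam) ^ 2 ≤ Real.exp (C * (m : ℝ) ^ 3) := by
  obtain ⟨k0, k1⟩ := kap_le lam h0 h1 a ha m hm
  have hl : 0 < 1 - lam := by linarith
  have hl2 : lam ^ 2 * (1 - lam) ≤ 1 - lam := by
    have : lam ^ 2 ≤ 1 := pow_le_one₀ h0.le h1.le
    nlinarith
  have ha1 : 1 / (1 - lam) ≤ a := by
    rw [ha, div_le_div_iff₀ hl (by positivity)]
    nlinarith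
  have hl3 : 1 ≤ 1 / (1 - lam) := by
    rw [le_div_iff₀ hl]
    linarith
  have ha0 : 1 ≤ a := hl3.trans ha1
  have hapos : 0 < a := by linarith
  have hloga : 0 ≤ Real.log a := Real.log_nonneg ha0
  have hkm : kap m lam ≤ a ^ m := by linarith
  have hm1 : (1 : ℝ) ≤ m := by exact_mod_cast hm
  have e1 : (288 : ℝ) ≤ Real.exp 6 := by
    have h2 : (2.7 : ℝ) ≤ Real.exp 1 := by
      have := Real.exp_one_gt_d9
      linarith
    calc (288 : ℝ) ≤ 2.7 ^ 6 := by norm_num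
      _ ≤ Real.exp 1 ^ 6 := pow_le_pow_left₀ (by norm_num) h2 6
      _ = Real.exp 6 := by
        rw [← Real.exp_nat_mul]
        norm_num
  have e2 : (m : ℝ) ^ 5 ≤ Real.exp (5 * m) := by
    have h2 : (m : ℝ) ≤ Real.exp m := by
      have := Real.add_one_le_exp (m : ℝ)
      linarith
    calc (m : ℝ) ^ 5 ≤ Real.exp m ^ 5 := pow_le_pow_left₀ (by positivity) h2 5
      _ = Real.exp (5 * m) := by
        rw [← Real.exp_nat_mul]
        push_cast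
        rfl
  have e3 : kap m lam ^ 4 ≤ (a ^ m) ^ 4 := pow_le_pow_left₀ k0 hkm 4
  have e4 : (1 + 4 * kap m lam) ^ (4 * m ^ 2) ≤ (a ^ m) ^ (4 * m ^ 2) :=
    pow_le_pow_left₀ (by linarith) k1 _
  have e5 : 1 / (1 - lam) ^ 2 ≤ a ^ 2 := by
    rw [← one_div_pow]
    exact pow_le_pow_left₀ (by linarith) ha1 2
  have e6 : ∀ k : ℕ, a ^ k = Real.exp (k * Real.log a) := by
    intro k
    rw [Real.exp_nat_mul, Real.exp_log hapos]
  calc 288 * (m : ℝ) ^ 5 * kap m lam ^ 4 * (1 + 4 * kap m lam) ^ (4 * m ^ 2) / (1 - lam) ^ 2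
      = 288 * (m : ℝ) ^ 5 * kap m lam ^ 4 * (1 + 4 * kap m lam) ^ (4 * m ^ 2) *
          (1 / (1 - lam) ^ 2) := by ring
    _ ≤ Real.exp 6 * Real.exp (5 * m) * (a ^ m) ^ 4 * (a ^ m) ^ (4 * m ^ 2) * a ^ 2 := by
        gcongr
    _ = Real.exp (6 + 5 * m + (4 * m + 4 * m ^ 3 + 2) * Real.log a) := by
        rw [← pow_mul, ← pow_mul, e6, e6, e6, ← Real.exp_add, ← Real.exp_add, ← Real.exp_add,
          ← Real.exp_add]
        congr 1
        push_cast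
        ring
    _ ≤ Real.exp (C * (m : ℝ) ^ 3) := by
        rw [Real.exp_le_exp]
        have h3 : (m : ℝ) ≤ m ^ 3 := le_self_pow₀ hm1 (by norm_num)
        have h4 : (1 : ℝ) ≤ (m : ℝ) ^ 3 := one_le_pow₀ hm1
        have h5 : (4 * m + 4 * (m : ℝ) ^ 3 + 2) * Real.log a ≤ 10 * (m : ℝ) ^ 3 * Real.log a := by
          refine mul_le_mul_of_nonneg_right ?_ hloga
          linarith
        have h6 : (11 + 10 * Real.log a) * (m : ℝ) ^ 3 ≤ C * (m : ℝ) ^ 3 := by gcongr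
        nlinarith

theorem part3 (D : ℕ) (hD : 1 ≤ D) : ∃ m : ℕ, 1 ≤ m ∧ (m : ℝ) ≤ 6 * (1 + Real.log D) ∧
    2 ^ m * D ^ (4 * m) < 2 ^ (m * m) := by
  have hpos : 0 < 2 * D ^ 4 := by positivity
  refine ⟨Nat.log 2 (2 * D ^ 4) + 1, by omega, ?_, ?_⟩
  · have h1 : 2 ^ Nat.log 2 (2 * D ^ 4) ≤ 2 * D ^ 4 := Nat.pow_log_le_self 2 hpos.ne'
    have h2 : (2 : ℝ) ^ Nat.log 2 (2 * D ^ 4) ≤ 2 * (D : ℝ) ^ 4 := by exact_mod_cast h1
    have hD0 : (0 : ℝ) < D := by exact_mod_cast hD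
    have hD1 : (1 : ℝ) ≤ D := by exact_mod_cast hD
    have h3 := Real.log_le_log (by positivity) h2
    rw [Real.log_pow, Real.log_mul (by norm_num) (by positivity), Real.log_pow] at h3
    have h4 := Real.log_two_gt_d9
    have h5 := Real.log_nonneg hD1
    push_cast at h3 ⊢
    have h6 : ((Nat.log 2 (2 * D ^ 4) : ℕ) : ℝ) - 1 ≤ 6 * Real.log D := by
      by_contra hcon
      push Not at hcon
      nlinarith
    linarith
  · have h1 : 2 * D ^ 4 < 2 ^ (Nat.log 2 (2 * D ^ 4) + 1) :=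
      Nat.lt_pow_succ_log_self (by norm_num) _
    set m := Nat.log 2 (2 * D ^ 4) + 1 with hm
    calc 2 ^ m * D ^ (4 * m) = (2 * D ^ 4) ^ m := by rw [mul_pow, ← pow_mul]
      _ < (2 ^ m) ^ m := Nat.pow_lt_pow_left h1 (by omega)
      _ = 2 ^ (m * m) := by rw [← pow_mul]

theorem main : NumE := by
  intro lam h0 h1
  have hl : 0 < 1 - lam := by linarith
  obtain ⟨k, hk⟩ := exists_pow_lt_of_lt_one (show 0 < (1 - lam) / 1176 by positivity) h1
  obtain ⟨a, ha⟩ : ∃ a : ℝ, a = 81 * 49 / (lam ^ 2 * (1 - lam)) := ⟨_, rfl⟩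
  have ha0 : 1 ≤ a := by
    rw [ha, le_div_iff₀ (by positivity)]
    have : lam ^ 2 ≤ 1 := pow_le_one₀ h0.le h1.le
    nlinarith
  have hloga : 0 ≤ Real.log a := Real.log_nonneg ha0
  have hk0 : (0 : ℝ) ≤ k := Nat.cast_nonneg k
  refine ⟨k + 4 + (11 + 10 * Real.log a), by linarith, fun m N hm hN => ?_, fun m hm => ?_, part3⟩
  · have hm1 : (1 : ℝ) ≤ m := by exact_mod_cast hm
    have h2 : ((k : ℝ) + 4) * m ≤ N + 1 := by
      refine le_trans ?_ hN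
      exact mul_le_mul_of_nonneg_right (by linarith) (by linarith)
    have h3 : (k + 4) * m ≤ N + 1 := by exact_mod_cast h2
    have h4 : 4 * m ≤ (k + 4) * m := Nat.mul_le_mul_right m (by omega)
    exact ⟨by omega, by omega, Pool.Agent.Q224.PL.NU.part1 lam h0 h1 k hk.le m N hm h3⟩
  · exact part2 lam h0 h1 a ha _ (by linarith) m hm

end Pool.Agent.Q237.PE.NU
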