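import Pool.Agent.Q234.PE.Stm
import Pool.Agent.Q68.PL.TH

/-!
# Project PE of helper234: the parities of the rows are conserved (job PE-SS, helper237)
-/

set_option autoImplicit false

open scoped BigOperators Matrix
open Finset Pool.Agent.TH235.PP Pool.Agent.Q234.PL Pool.Agent.Q234.PE

namespace Pool.Agent.Q237.PE.SS

variable {N : ℕ}

/-- the parity of the row `y` -/
def pr (s : Site (N + 1) → Fin 2) (y : ZMod (N + 1)) : ℂ :=
  ∏ x : Fin (N + 1), sgn (s (row y x))

theorem sgn_or (a : Fin 2) : sgn a = 1 ∨ sgn a = -1 := by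
  unfold sgn
  split_ifs
  · exact Or.inl rfl
  · exact Or.inr rfl

theorem pr_or (s : Site (N + 1) → Fin 2) (y : ZMod (N + 1)) : pr s y = 1 ∨ pr s y = -1 := by
  unfold pr
  refine Finset.prod_induction _ (fun z : ℂ => z = 1 ∨ z = -1) ?_ (Or.inl rfl) fun x _ => sgn_or _
  rintro a b (rfl | rfl) (rfl | rfl)
  · left; ring
  · right; ring
  · right; ring
  · left; ring

/-- a flip changes the parity of its row only -/
theorem pr_flip (v : Site (N + 1)) (s : Site (N + 1) → Fin 2) (y : ZMod (N + 1)) :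
    pr (Pool.Agent.Q234.PL.flip v s) y = (if y = v.2 then -1 else 1) * pr s y := by
  classical
  have h1 : ∀ x : Fin (N + 1), sgn (Pool.Agent.Q234.PL.flip v s (row y x)) =
      (if row y x = v then -1 else 1) * sgn (s (row y x)) := by
    intro x
    by_cases h : row y x = v
    · rw [if_pos h, h, Pool.Agent.Q68.PL.flip_self, Pool.Agent.Q68.PL.sgn_add_one, neg_one_mul]
    · rw [if_neg h, Pool.Agent.Q68.PL.flip_ne h, one_mul]
  unfold pr
  rw [prod_congr rfl fun x _ => h1 x, prod_mul_distrib]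
  congr 1
  by_cases hy : y = v.2
  · rw [if_pos hy]
    obtain ⟨a, ha⟩ : ∃ a : Fin (N + 1), row y a = v := ⟨v.1, by
      unfold row
      rw [hy]⟩
    rw [Finset.prod_eq_single a]
    · rw [if_pos ha]
    · intro x _ hx
      rw [if_neg]
      intro h
      exact hx (row_inj y (h.trans ha.symm))
    · intro h
      exact absurd (mem_univ _) h
  · rw [if_neg hy]
    refine prod_eq_one fun x _ => ?_
    rw [if_neg]
    intro h
    exact hy (congrArg Prod.snd h)

theorem pr_two (u v : Site (N + 1)) (h : v.2 = u.2) (s : Site (N + 1) → Fin 2) (y : ZMod (N + 1)) :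
    pr (Pool.Agent.Q234.PL.flip v (Pool.Agent.Q234.PL.flip u s)) y = pr s y := by
  rw [pr_flip, pr_flip, h]
  split_ifs
  · ring
  · ring

/-- the Hamiltonian preserves the parities -/
theorem ham_pr (lam : ℝ) (hN : 1 ≤ N) (s t : Site (N + 1) → Fin 2)
    (h : ham (ising lam) (N + 1) s t ≠ 0) (y : ZMod (N + 1)) : pr s y = pr t y := by
  classical
  by_contra hne
  apply h
  unfold ham
  rw [Matrix.sum_apply]
  refine sum_eq_zero fun u _ => ?_
  rw [Pool.Agent.Q68.PL.THjob.term_nf lam hN]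
  unfold Pool.Agent.Q68.PL.THjob.nf
  rw [if_neg, if_neg, sub_zero]
  · rintro rfl
    exact hne (pr_two u (u.1 + 1, u.2) rfl s y).symm
  · rintro rfl
    exact hne rfl

open Classical in
/-- the sector of a configuration -/
noncomputable def be (s : Site (N + 1) → Fin 2) : ZMod (N + 1) → Bool := fun y => decide (pr s y = -1)

/-- the signs of a sector -/
noncomputable def sg (b : ZMod (N + 1) → Bool) : ZMod (N + 1) → ℝ := fun y => if b y then 1 else -1

theorem in_iff (b : ZMod (N + 1) → Bool) (s : Site (N + 1) → Fin 2) :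
    (∀ y, ∏ x : Fin (N + 1), sgn (s (row y x)) = ((-(sg b y) : ℝ) : ℂ)) ↔ b = be s := by
  have hy : ∀ y, (∏ x : Fin (N + 1), sgn (s (row y x)) = ((-(sg b y) : ℝ) : ℂ)) ↔ b y = be s y := by
    intro y
    have h1 : ∏ x : Fin (N + 1), sgn (s (row y x)) = pr s y := rfl
    rw [h1]
    unfold sg be
    have h2 : (1 : ℂ) ≠ -1 := by norm_num
    rcases pr_or s y with h | h <;> rw [h] <;> cases b y <;> simp [h2, h2.symm]
  constructor
  · intro h
    funext y
    exact (hy y).1 (h y)
  · intro h y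
    exact (hy y).2 (congrFun h y)

open Classical in
theorem sec_eq (b : ZMod (N + 1) → Bool) (φ : (Site (N + 1) → Fin 2) → ℂ)
    (s : Site (N + 1) → Fin 2) : sec (sg b) φ s = if b = be s then φ s else 0 := by
  unfold sec
  by_cases h : b = be s
  · rw [if_pos h, if_pos ((in_iff b s).2 h)]
  · rw [if_neg h, if_neg fun h' => h ((in_iff b s).1 h')]

theorem normSq_sec (φ : (Site (N + 1) → Fin 2) → ℂ) :
    normSq φ = ∑ b : ZMod (N + 1) → Bool, normSq (sec (sg b) φ) := by
  classical
  unfold normSq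
  rw [sum_comm]
  refine sum_congr rfl fun s _ => ?_
  rw [Finset.sum_eq_single (be s)]
  · rw [sec_eq, if_pos rfl]
  · intro b _ hb
    rw [sec_eq, if_neg hb, norm_zero]
    norm_num
  · intro h
    exact absurd (mem_univ _) h

theorem ip_expand {n : Type} [Fintype n] (A : Matrix n n ℂ) (φ : n → ℂ) :
    ip φ (A *ᵥ φ) = ∑ s, ∑ t, A s t * ((starRingEnd ℂ) (φ s) * φ t) := by
  unfold ip
  refine sum_congr rfl fun s _ => ?_
  rw [mv, mul_sum]
  exact sum_congr rfl fun t _ => by ring

theorem ip_sec (lam : ℝ) (hN : 1 ≤ N) (φ : (Site (N + 1) → Fin 2) → ℂ) :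
    ip φ (ham (ising lam) (N + 1) *ᵥ φ) = ∑ b : ZMod (N + 1) → Bool,
      ip (sec (sg b) φ) (ham (ising lam) (N + 1) *ᵥ sec (sg b) φ) := by
  classical
  obtain ⟨F, hF⟩ : ∃ F : (ZMod (N + 1) → Bool) → (Site (N + 1) → Fin 2) →
      (Site (N + 1) → Fin 2) → ℂ, F = fun b s t => ham (ising lam) (N + 1) s t *
        ((starRingEnd ℂ) (sec (sg b) φ s) * sec (sg b) φ t) := ⟨_, rfl⟩
  have h1 : ∀ b, ip (sec (sg b) φ) (ham (ising lam) (N + 1) *ᵥ sec (sg b) φ) =
      ∑ s, ∑ t, F b s t := by
    intro b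
    rw [ip_expand, hF]
  have h2 : ∀ s t, ham (ising lam) (N + 1) s t * ((starRingEnd ℂ) (φ s) * φ t) = ∑ b, F b s t := by
    intro s t
    rw [Finset.sum_eq_single (be s), hF]
    · simp only
      rw [sec_eq, sec_eq, if_pos rfl]
      by_cases h : ham (ising lam) (N + 1) s t = 0
      · rw [h, zero_mul, zero_mul]
      · have hb : be s = be t := by
          funext y
          unfold be
          rw [ham_pr lam hN s t h y]
        rw [if_pos hb]
    · intro b _ hb
      rw [hF]
      simp only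
      rw [sec_eq b φ s, if_neg hb, map_zero, zero_mul, mul_zero]
    · intro h
      exact absurd (mem_univ _) h
  rw [ip_expand, sum_congr rfl fun b _ => h1 b]
  calc ∑ s, ∑ t, ham (ising lam) (N + 1) s t * ((starRingEnd ℂ) (φ s) * φ t)
      = ∑ s, ∑ t, ∑ b, F b s t := sum_congr rfl fun s _ => sum_congr rfl fun t _ => h2 s t
    _ = ∑ s, ∑ b, ∑ t, F b s t := sum_congr rfl fun s _ => Finset.sum_comm
    _ = ∑ b, ∑ s, ∑ t, F b s t := Finset.sum_comm

theorem main : SecSum := by
  intro N lam c φ hN h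
  rw [normSq_sec φ, ip_sec lam hN φ, Complex.re_sum, mul_sum]
  refine sum_le_sum fun b _ => h (sg b) fun y => ?_
  unfold sg
  split_ifs
  · exact Or.inl rfl
  · exact Or.inr rfl

end Pool.Agent.Q237.PE.SS
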